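import Pool.Agent.helper48.PR.SpecH

set_option autoImplicit false

namespace Pool.Agent.PR

open Polynomial

theorem HA_aeval_conj {F R : Type} [Field F] [Ring R] [Algebra F R] (g : Rˣ) (A : R) (p : F[X]) :
    (g : R) * aeval A p = aeval ((g : R) * A * (g⁻¹ : Rˣ)) p * g := by
  induction p using Polynomial.induction_on' with
  | add p q hp hq => simp only [map_add, mul_add, add_mul, hp, hq]
  | monomial k c =>
    simp only [aeval_monomial]
    have h1 : ∀ k : ℕ, (g : R) * A ^ k = ((g : R) * A * (g⁻¹ : Rˣ)) ^ k * g := by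
      intro k
      induction k with
      | zero => simp
      | succ k ih =>
        calc (g : R) * A ^ (k + 1) = ((g : R) * A ^ k) * A := by rw [pow_succ, mul_assoc]
          _ = ((g : R) * A * (g⁻¹ : Rˣ)) ^ k * (g * A) := by rw [ih, mul_assoc]
          _ = ((g : R) * A * (g⁻¹ : Rˣ)) ^ k * ((g : R) * A * (g⁻¹ : Rˣ) * g) := by
              rw [mul_assoc ((g : R) * A), Units.inv_mul, mul_one]
          _ = _ := by rw [← mul_assoc, ← pow_succ]
    rw [← mul_assoc, ← Algebra.commutes c (g : R), mul_assoc, h1 k, ← mul_assoc]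

theorem HA_end {F V : Type} [Field F] [CharZero F] [AddCommGroup V] [Module F V]
    [FiniteDimensional F V] (A : Module.End F V) (hA : IsUnit A) :
    ∃ S : Module.End F V, IsUnit S ∧ IsNilpotent (A - S) ∧
      (∀ z : Module.End F V, Commute z A → Commute z S) ∧
      ∀ (g : (Module.End F V)ˣ) (ζ : Module.End F V), IsNilpotent (ζ - 1) → Commute ζ A →
        Commute ζ (g : Module.End F V) → (g : Module.End F V) * A = ζ * A * g →
        (g : Module.End F V) * S = S * g := by
  obtain ⟨N, hN, S, hS, hNn, hSs, hAe⟩ := Module.End.exists_isNilpotent_isSemisimple (f := A)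
  rw [Algebra.adjoin_singleton_eq_range_aeval] at hN hS
  obtain ⟨r, hr⟩ := hN
  obtain ⟨q, hq⟩ := hS
  have hr' : aeval A r = N := hr
  have hq' : aeval A q = S := hq
  have hcomm : ∀ (z B : Module.End F V), Commute z B → ∀ p : F[X], Commute z (aeval B p) := by
    intro z B h p
    induction p using Polynomial.induction_on' with
    | add p q hp hq => simpa using hp.add_right hq
    | monomial k c =>
      rw [aeval_monomial]
      exact Commute.mul_right (Algebra.commutes c z).symm (h.pow_right k)
  have hAN : Commute A N := hr' ▸ hcomm A A (Commute.refl A) r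
  have hSA : S = A - N := by rw [hAe]; abel
  refine ⟨S, ?_, ?_, ?_, ?_⟩
  · rw [hSA, sub_eq_add_neg]
    exact (hNn.neg).isUnit_add_left_of_commute hA (hAN.symm.neg_left)
  · have : A - S = N := by rw [hSA]; abel
    rw [this]; exact hNn
  · intro z hz
    rw [← hq']
    exact hcomm z A hz q
  · intro g ζ hζ hζA hζg hgA
    have hB : (g : Module.End F V) * A * (g⁻¹ : (Module.End F V)ˣ) = ζ * A := by
      rw [hgA, mul_assoc, Units.mul_inv, mul_one]
    have hgS : (g : Module.End F V) * S = aeval (ζ * A) q * g := by
      rw [← hq', HA_aeval_conj g A q, hB]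
    have hgN : (g : Module.End F V) * N = aeval (ζ * A) r * g := by
      rw [← hr', HA_aeval_conj g A r, hB]
    set S1 := aeval (ζ * A) q with hS1
    set N1 := aeval (ζ * A) r with hN1
    have hzN : Commute ζ N := hr' ▸ hcomm ζ A hζA r
    have hzS : Commute ζ S := hq' ▸ hcomm ζ A hζA q
    have hAS : Commute A S := hq' ▸ hcomm A A (Commute.refl A) q
    have hNS : Commute N S := hq' ▸ hcomm N A hAN.symm q
    have hSzA : Commute S (ζ * A) := (hzS.symm).mul_right hAS.symm
    have hNzA : Commute N (ζ * A) := (hzN.symm).mul_right hAN.symm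
    have hzzA : Commute ζ (ζ * A) := (Commute.refl ζ).mul_right hζA
    have hAzA : Commute A (ζ * A) := (hζA.symm).mul_right (Commute.refl A)
    have hSS1 : Commute S S1 := hcomm _ _ hSzA q
    have hNN1 : Commute N N1 := hcomm _ _ hNzA r
    have hzN1 : Commute ζ N1 := hcomm _ _ hzzA r
    have hAN1 : Commute A N1 := hcomm _ _ hAzA r
    have hS1e : S1 = (g : Module.End F V) * S * (g⁻¹ : (Module.End F V)ˣ) := by
      rw [hgS, mul_assoc, Units.mul_inv, mul_one]
    have hN1e : N1 = (g : Module.End F V) * N * (g⁻¹ : (Module.End F V)ˣ) := by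
      rw [hgN, mul_assoc, Units.mul_inv, mul_one]
    -- S1 semisimple
    have hS1s : S1.IsSemisimple := by
      have hsq := hSs.minpoly_squarefree
      refine Module.End.isSemisimple_of_squarefree_aeval_eq_zero hsq ?_
      have := HA_aeval_conj g S (minpoly F S)
      rw [minpoly.aeval, mul_zero, ← hS1e] at this
      have h2 := congrArg (fun x => x * ((g⁻¹ : (Module.End F V)ˣ) : Module.End F V)) this
      simp only [zero_mul, mul_assoc, Units.mul_inv, mul_one] at h2
      exact h2.symm
    have hN1n : IsNilpotent N1 := by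
      obtain ⟨k, hk⟩ := hNn
      refine ⟨k, ?_⟩
      have h3 : (g : Module.End F V) * N ^ k = N1 ^ k * g := by
        have := HA_aeval_conj g N (X ^ k : F[X])
        simpa [hN1e] using this
      rw [hk, mul_zero] at h3
      have h2 := congrArg (fun x => x * ((g⁻¹ : (Module.End F V)ˣ) : Module.End F V)) h3
      simp only [zero_mul, mul_assoc, Units.mul_inv, mul_one] at h2
      exact h2.symm
    have hss : (S1 - S).IsSemisimple := hS1s.sub_of_commute hSS1.symm hSs
    have hsum : S1 - S = (ζ - 1) * A + N - N1 := by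
      have e1 : S1 = ζ * A - N1 := by
        have : (g : Module.End F V) * S * (g⁻¹ : (Module.End F V)ˣ)
            = (g : Module.End F V) * A * (g⁻¹ : (Module.End F V)ˣ)
              - (g : Module.End F V) * N * (g⁻¹ : (Module.End F V)ˣ) := by
          rw [hSA]; noncomm_ring
        rw [hS1e, this, hB, ← hN1e]
      rw [e1, hSA, sub_mul, one_mul]; abel
    have hn1 : IsNilpotent ((ζ - 1) * A) := by
      have : Commute (ζ - 1) A := hζA.sub_left (Commute.one_left A)
      exact this.isNilpotent_mul_right hζ
    have hc1 : Commute ((ζ - 1) * A) N :=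
      ((hzN.sub_left (Commute.one_left N))).mul_left hAN
    have hc2 : Commute ((ζ - 1) * A + N) N1 :=
      (((hzN1.sub_left (Commute.one_left N1))).mul_left hAN1).add_left hNN1
    have hnil : IsNilpotent (S1 - S) := by
      rw [hsum]
      exact hc2.isNilpotent_sub (hc1.isNilpotent_add hn1 hNn) hN1n
    have hz : S1 - S = 0 := Module.End.eq_zero_of_isNilpotent_isSemisimple hnil hss
    rw [hgS, sub_eq_zero.mp hz]

theorem HA : HA_stmt := by
  intro n F _ _ A A' hAA'
  let e : Matrix (Fin n) (Fin n) F ≃ₐ[F] Module.End F (Fin n → F) := Matrix.toLinAlgEquiv'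
  have hA'A : A' * A = 1 := mul_eq_one_comm.mp hAA'
  have hu : IsUnit (e A) := by
    refine (IsUnit.map e ?_)
    exact ⟨⟨A, A', hAA', hA'A⟩, rfl⟩
  obtain ⟨S, hSu, hSn, hSc, hSg⟩ := HA_end (e A) hu
  obtain ⟨s, hs⟩ := hSu
  set B := e.symm S with hB
  set B' := e.symm ((s⁻¹ : (Module.End F (Fin n → F))ˣ) : Module.End F (Fin n → F)) with hB'
  have hBB' : B * B' = 1 := by
    rw [hB, hB', ← map_mul, ← hs, Units.mul_inv, map_one]
  have hB'B : B' * B = 1 := mul_eq_one_comm.mp hBB'
  have hcB : ∀ z : Matrix (Fin n) (Fin n) F, Commute z A → Commute z B := by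
    intro z hz
    have h1 : Commute (e z) (e A) := hz.map e
    have h2 := (hSc _ h1).map e.symm
    simpa [hB] using h2
  have hcB' : ∀ z : Matrix (Fin n) (Fin n) F, Commute z B → Commute z B' := by
    intro z hz
    have : z * B' = B' * z := by
      calc z * B' = B' * B * (z * B') := by rw [hB'B, one_mul]
        _ = B' * (B * z) * B' := by simp only [mul_assoc]
        _ = B' * (z * B) * B' := by rw [hz.eq]
        _ = B' * z * (B * B') := by simp only [mul_assoc]
        _ = B' * z := by rw [hBB', mul_one]
    exact this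
  have hAB : Commute A B := hcB A (Commute.refl A)
  have hnil : IsNilpotent (A - B) := by
    have h1 := hSn.map e.symm
    simpa [hB] using h1
  refine ⟨B' * A, A' * B, ?_, ?_, ?_⟩
  · have h1 : B' * A - 1 = (A - B) * B' := by
      have h2 : A * B' = B' * A := (hcB' A hAB).eq
      rw [sub_mul, h2, hBB']
    rw [h1]
    have hc : Commute (A - B) B' := (hcB' A hAB).sub_left (hcB' B (Commute.refl B))
    exact hc.isNilpotent_mul_right hnil
  · rw [mul_assoc, ← mul_assoc A A' B, hAA', one_mul, hB'B]
  · intro g g' ζ hgg' hζ hζA hζg hgA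
    have hg'g : g' * g = 1 := mul_eq_one_comm.mp hgg'
    let G : (Module.End F (Fin n → F))ˣ := ⟨e g, e g', by rw [← map_mul, hgg', map_one],
      by rw [← map_mul, hg'g, map_one]⟩
    have hz : IsNilpotent (e ζ - 1) := by
      have := hζ.map e
      simpa using this
    have h1 := hSg G (e ζ) hz (by
        have : Commute ζ A := hζA
        exact this.map e) (by
        have : Commute ζ g := hζg
        exact this.map e) (by
        show e g * e A = e ζ * e A * e g
        rw [← map_mul, hgA, map_mul, map_mul])
    have h2 : g * B = B * g := by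
      have h3 := congrArg e.symm h1
      rw [map_mul, map_mul] at h3
      have h4 : e.symm ((G : (Module.End F (Fin n → F))ˣ) : Module.End F (Fin n → F)) = g := by
        show e.symm (e g) = g
        simp
      rw [h4] at h3
      exact h3
    have h5 : Commute g B' := hcB' g h2
    have h6 : Commute ζ B' := hcB' ζ (hcB ζ hζA)
    calc g * (B' * A) = B' * (g * A) := by rw [← mul_assoc, h5.eq, mul_assoc]
      _ = B' * (ζ * A * g) := by rw [hgA]
      _ = ζ * (B' * A) * g := by
          rw [← mul_assoc, ← mul_assoc, ← h6.eq]; simp only [mul_assoc]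

end Pool.Agent.PR
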