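import Pool.Agent.helper5.PR.SpecY

set_option autoImplicit false

namespace Pool.Agent.PR

theorem Y_POWF (hTORF : Y_TORF_stmt) : Y_POWF_stmt := by
  intro P _ hFG hN H hH hpow
  have := hH
  have := hFG
  have := hN
  have hfin : Finite (P ⧸ H) := by
    refine hTORF (P ⧸ H) ?_ ?_ ?_
    · infer_instance
    · infer_instance
    · intro x
      obtain ⟨g, rfl⟩ := QuotientGroup.mk_surjective x
      obtain ⟨k, hk, hg⟩ := hpow g
      refine ⟨k, hk, ?_⟩
      rw [← QuotientGroup.mk_pow]
      exact (QuotientGroup.eq_one_iff _).mpr hg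
  exact Subgroup.finiteIndex_of_finite_quotient

end Pool.Agent.PR
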